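import Mathlib
import Pool.Agent.Run7.h200.LP.Main

/-!
# Leopoldt's conjecture for fixed fields

Let `N/k` be a Galois extension of number fields with group `G` and `p` a prime number. For a subgroup
`H` of `G` let `J H` (`LeoFix`) be Leopoldt's conjecture for the field `N^H` and `p`: the kernel of
Leopoldt's map `ℂ_p ⊗ 𝓞^× → ∏ ℂ_p`, `u ↦ (log_p σ u)_σ`, for this field is zero. (The dimension
`leo` of the kernel is the Leopoldt defect; that it is zero implies the relation form of the conjecture, see
`UnramifiedExtensions`.)

(1) `J 1` is Leopoldt's conjecture for `N`, and `J H` is inherited by subfields.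

(2) `Sieve`: let `K` be a commutative subgroup of `G`, and `R_j` subgroups for which the
conjecture is known, for example because the field `N^{R_j}` is abelian over the rational numbers, or
over an imaginary quadratic field. Then Leopoldt's conjecture for `N` is equivalent to the conjecture
for the `N^D`, where `D ⊆ K`, `K/D` is cyclic, and `D` contains no `R_j`.

(3) The conjecture for `N^H` follows from the conjecture for the fields `N^{E_j}`, if every irreducible
rational representation of `G` which occurs in the kernel of Leopoldt's map for `N` and has a nonzero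
vector fixed by `H` has for some `j` a nonzero vector fixed by `E_j` (by Ax and
Brumer characters which are trivial on the commutator group do not occur if `k = ℚ`). The conjecture for `N` is equivalent
to the conjecture for the fixed fields: of the `D` with `K/D` cyclic, `K` commutative; of the components
of a partition of a subgroup; of `⟨c⟩` and `[G, c]`, `c` an involution, for example complex
conjugation; of `⟨c⟩`, if `c` is contained in a nonabelian simple subgroup; of `A_k`, if `G` contains the image
of `A_n` and `(k - 1) ^ 2 < n`; of `A_k` and of the group of the even permutations preserving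
`k - 1` classes, `2 ≤ k ≤ n` (`Criteria`).

(4) If `S_n` is mapped to `G`, `(k - 1) ^ 2 < n`: the conjecture holds for `N` if and only if it holds
for the fixed field of `S_k`, and the kernel contains no nonzero elements which are alternating under
`S_k`.

(5) If the conjecture is wrong for `N`, but true for the fixed fields of all subgroups of prime order,
then `G` acts freely on the nonzero vectors of an irreducible rational representation which occurs in
the kernel, the commutative subgroups and the subgroups of order `q r` (primes) of `G` are cyclic, and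
`G` has at most one involution.
-/

set_option autoImplicit false

open NumberField Equiv Pool.Agent.W289.SL Pool.Agent.Run7.h508.BR Run7.h200.Van Run7.h200.Pr
  Run7.h200.LP

namespace Pool.Agent.Results.MP_5f2860_nt.FixedFields

/-- **Leopoldt's conjecture for fixed fields.** -/
theorem result (p : ℕ) [Fact p.Prime] (ℓ : ℂ_[p] → ℂ_[p]) (hℓ : IsIwasawaLog p ℓ) (k N : Type)
    [Field k] [NumberField k] [Field N] [NumberField N] [Algebra k N] [IsGalois k N] :
    (LeoFix hℓ (⊥ : Subgroup (N ≃ₐ[k] N)) ↔ leo hℓ N = 0) ∧
    Mono (LeoFix hℓ (k := k) (N := N)) ∧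
    (∀ (H : Subgroup (N ≃ₐ[k] N)) (ι : Type) (E : ι → Subgroup (N ≃ₐ[k] N)),
      Dom (actU p k N) (InKer hℓ N) H E → (∀ j, LeoFix hℓ (E j)) → LeoFix hℓ H) ∧
    Criteria (LeoFix hℓ (k := k) (N := N)) ∧ Sieve (LeoFix hℓ (k := k) (N := N)) ∧
    (∀ (n r : ℕ) (e : Perm (Fin n) →* (N ≃ₐ[k] N)), 2 ≤ r → (r - 1) ^ 2 < n →
      (LeoFix hℓ (⊥ : Subgroup (N ≃ₐ[k] N)) ↔ LeoFix hℓ ((symSub n r).map e) ∧
        NoAlt (actU p k N) (InKer hℓ N) e r)) ∧
    (¬ LeoFix hℓ (⊥ : Subgroup (N ≃ₐ[k] N)) →
      (∀ D : Subgroup (N ≃ₐ[k] N), (Nat.card D).Prime → LeoFix hℓ D) →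
      Fre (actU p k N) (InKer hℓ N) ∧ CyclicSubgroups (N ≃ₐ[k] N)) :=
  ⟨bot_iff, mainLP⟩

end Pool.Agent.Results.MP_5f2860_nt.FixedFields
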