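import Pool.Agent.Run7.h316.PN.Dom
import Pool.Agent.N918.PN.Leo
import Pool.Agent.Results.MP_5f2860_nt.AlmostAllMembers

/-!
# Leopoldt's conjecture for families of number fields of every signature with prime parameters, at all primes up to a
# function tending to infinity

For integers `a_1, …, a_{r₁}`, `b_1, c_1, …, b_{r₂}, c_{r₂}`, `c_k > 0`, let

  `f = ∏ (Y - a_i) ∏ ((Y - b_k)² + c_k) - 1`   (`poly x`),

a polynomial of degree `n = r₁ + 2 r₂`, and let `K = ℚ[Y]/(f)`. `Good p x` (starting file `AlmostAllMembers`,
helper924): `f` is irreducible, `K` has exactly `r₁` real and `r₂` complex places, and Leopoldt's conjecture holds for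
`K` and the prime `p`.

Let `x w`, `w ∈ Ω`, be a family of vectors of parameters and `S N ⊂ Ω` finite sets. `AlmostAll M`: there is a function
`P(N)` which tends to infinity such that for all but at most the proportion `1 / (P(N) + 1)` of the `w ∈ S N` the vector
`x w`, if its coordinates `c_k` are positive, is good for ALL primes `p ≤ P(N)` which do not divide `M`.

**Theorem.** Let `r₁ + r₂ ≥ 1`.

(1) PRIME PARAMETERS: let `u`, `t` be integral vectors, all `u_i ≠ 0`. The vectors `x = (u_i q_i + t_i)_i`, where the
`q_i` are prime numbers `≤ N`, have the property `AlmostAll 1`. In particular (`u_i = 1`, `t_i = 0`) for almost all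
vectors of prime numbers `a_i`, `b_k`, `c_k` up to `N` the field `K` has the signature `(r₁, r₂)`, and Leopoldt's
conjecture holds for `K` and all primes `p ≤ P(N)`.

(2) All families which are dominated at all primes `p` not dividing `M` (`DominatedAt`: for some `C = C(p)` the
proportion of the vectors in any class modulo `p ^ k` is at most `C p ^ (- k n) + o(1)`, for all `k`) have the property
`AlmostAll M`: so all subfamilies of positive lower density of equidistributed families, along arbitrary sets, of vectors
of primes, and so on.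

The starting files treat boxes and sequences which are uniformly distributed modulo all integers (`AlmostAllMembers`), and
random orbits and metric sequences (`ResidueClassesAndOrbits`, helper918), for each `p`. Vectors of primes are not uniformly
distributed modulo `p`: they are vectors of units.

Proof. For every `p` the exceptional vectors are contained in few classes modulo a power of `p` (`Pool.Agent.N918.PN.Leo`,
helper918; the analysis over `ℤ_p` is due to helper924). At most the proportion `20 / φ(p ^ k)` of the primes is in a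
class modulo `p ^ k` (prime number theorem for arithmetic progressions, helper923), and `φ(p ^ k) ≥ p ^ k / 2`. A diagonal
argument gives `P(N)`.
-/

set_option autoImplicit false

namespace Pool.Agent.Results.MP_5f2860_nt.PrimeParameters

open Filter
open Pool.Agent.Results.MP_5f2860_nt.AlmostAllMembers (Ind Good good_iff)
open Pool.Agent.Run7.h316.EQ (Rare primeBox)
open Pool.Agent.Run7.h316.PN (DominatedAt)

/-- The vectors of parameters with all `c_k` positive which are not good for some prime `p ≤ P` not dividing `M`. -/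
def Bad {r₁ r₂ : ℕ} (M P : ℕ) : Set (Ind r₁ r₂ → ℤ) :=
  {x | (∀ k, 0 < x (Sum.inr (Sum.inr k))) ∧
    ∃ (p : ℕ) (_ : Fact p.Prime), p ≤ P ∧ ¬ p ∣ M ∧ ¬ Good p x}

/-- There is a function `P N` tending to infinity such that at most the proportion `1 / (P N + 1)` of the `w` in `S N` is
bad for some prime `p ≤ P N` not dividing `M`. -/
def AlmostAll {r₁ r₂ : ℕ} (M : ℕ) {Ω : Type} (S : ℕ → Finset Ω) (x : Ω → Ind r₁ r₂ → ℤ) : Prop :=
  ∃ P : ℕ → ℕ, Tendsto P atTop atTop ∧
    ∀ N : ℕ, (P N + 1) * {w : Ω | w ∈ S N ∧ x w ∈ Bad M (P N)}.ncard ≤ (S N).card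

theorem almostAll {r₁ r₂ : ℕ} (hr : 1 ≤ r₁ + r₂) (M : ℕ) {Ω : Type} (S : ℕ → Finset Ω)
    (x : Ω → Ind r₁ r₂ → ℤ) (h : ∀ p : ℕ, p.Prime → ¬ p ∣ M → DominatedAt p S x) :
    AlmostAll M S x := by
  classical
  refine Pool.Agent.Run7.h316.PN.diagonal (fun j => Bad M j) ?_ fun j => ?_
  · ext y
    simp only [Bad, Set.mem_ofPred_eq, Set.mem_empty_iff_false, iff_false]
    rintro ⟨-, p, hp, hp0, -, -⟩
    have := hp.out.pos
    omega
  · refine Pool.Agent.Run7.h316.EQ.Rare.mono ?_
      (Pool.Agent.Run7.h316.PN.rare_biUnion' (S := S) (c := x)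
        ((Finset.range (j + 1)).filter fun p => p.Prime ∧ ¬ p ∣ M)
        (B := fun p => {y | (∀ k, 0 < y (Sum.inr (Sum.inr k))) ∧
          ∃ _ : Fact p.Prime, ¬ Good p y}) fun p hp => ?_)
    · rintro y ⟨h1, p, hp, hpj, hpM, h2⟩
      rw [Set.mem_iUnion₂]
      exact ⟨p, Finset.mem_filter.2 ⟨Finset.mem_range.2 (by omega), hp.out, hpM⟩, h1, hp, h2⟩
    · rw [Finset.mem_filter] at hp
      have hF : Fact p.Prime := ⟨hp.2.1⟩
      refine Pool.Agent.Run7.h316.PN.rare_of_pnull hp.2.1.pos (h p hp.2.1 hp.2.2) ?_
      have h1 : Pool.Agent.N918.PN.PNull p {y : Ind r₁ r₂ → ℤ | (∀ k, 0 < y (Sum.inr (Sum.inr k))) ∧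
          ∃ _ : Fact p.Prime, ¬ Good p y} := by
        refine (Pool.Agent.N918.PN.pnull_leo p hr).mono ?_ hp.2.1.pos
        rintro y ⟨h1, _, h2⟩
        exact ⟨h1, fun h3 => h2 ((good_iff p y).2 h3)⟩
      exact h1

/-- **Leopoldt's conjecture for families of every signature with prime parameters** and for all families which are
dominated at the primes not dividing `M`, at all primes up to a function tending to infinity. -/
theorem result (r₁ r₂ : ℕ) (hr : 1 ≤ r₁ + r₂) :
    (∀ u t : Ind r₁ r₂ → ℤ, (∀ i, u i ≠ 0) →
      AlmostAll 1 (primeBox (Ind r₁ r₂)) (fun q i => u i * q i + t i)) ∧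
    (∀ (M : ℕ) (Ω : Type) (S : ℕ → Finset Ω) (x : Ω → Ind r₁ r₂ → ℤ),
      (∀ p : ℕ, p.Prime → ¬ p ∣ M → DominatedAt p S x) → AlmostAll M S x) :=
  ⟨fun u t hu => almostAll hr 1 _ _ fun _ hp _ =>
    Pool.Agent.Run7.h316.PN.dominatedAt_affine hp.pos
      (Pool.Agent.Run7.h316.PN.dominatedAt_primes hp) u t hu,
    fun M _ S x h => almostAll hr M S x h⟩

end Pool.Agent.Results.MP_5f2860_nt.PrimeParameters
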