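import Pool.Agent.Run7.h972.AW.PN
import Pool.Agent.Results.MP_5f2860_nt.ResidueClassesAndOrbits

/-!
# Leopoldt's conjecture along random orbits of affine maps, for the families with `r₁ + 2 r₂` parameters

For integers `a_1, …, a_{r₁}`, `b_1, c_1, …, b_{r₂}, c_{r₂}`, `c_k > 0`, let

  `f = ∏ (Y - a_i) ∏ ((Y - b_k)² + c_k) - 1`   (`poly x`),

a polynomial of degree `n = r₁ + 2 r₂` which depends on `n` free parameters, and let `K = ℚ[Y]/(f)`. `Good p x` (see
`AlmostAllMembers.lean`): `f` is irreducible, `K` has exactly `r₁` real and `r₂` complex places, and Leopoldt's conjecture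
holds for `K` and the prime `p`. The vector `x` of parameters with `c_k > 0` for all `k` is bad if it is not good; `Bad p σ`
(starting file `ResidueClassesAndOrbits`) is the set of the vectors in `ℤ ^ r` whose coordinates `σ i` are a bad vector.

The starting result treats the random orbits of a vector `v` under matrices `s_0, …, s_m ∈ SL_r(ℤ)`, `r ≥ 2`, which generate
`SL_r(ℤ/q)` for all `q` prime to some `q₀`, for the odd primes `p` which divide neither `q₀` nor all coordinates of `v`. Here the
maps are affine and need not be invertible, and almost surely all starting vectors are considered.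

Let `x ↦ A_j x + b_j`, `j ≤ m`, be a finite family of affine maps of `ℤ ^ r` (`AffineWalk`) which for all `q` prime to some `M`
are permutations of `(ℤ/q) ^ r` and generate a transitive group. The determinants of the `A_j` are arbitrary nonzero integers.
For instance `x ↦ 10 x + e` for vectors `e` of digits whose differences span `ℚ ^ r` (the parameters are integers with random
digits, read from the left), `x ↦ 2 x + 1`, `x ↦ 3 x` (`r = 1`), or random walks on `ℤ ^ r` (`A_j = 1`), of which polynomially
many vectors are visited. For independent and uniformly distributed indices `w 0, w 1, …` let `c_0 = v`,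
`c_(t+1) = A_(w t) c_t + b_(w t)`.

**Theorem.** For almost every word `w`: for ALL starting vectors `v`, ALL primes `p` which do not divide `M` (also `p = 2`), ALL
signatures `(r₁, r₂)` and ALL choices `σ` of different coordinates as the parameters the times `t` at which the vector of the
parameters taken from `c_t` is bad have density zero.

Proof. The bad vectors are contained in few residue classes modulo a power of `p` (starting library, `Pool.Agent.N924.LP`
and `Pool.Agent.N918.PN`), and almost surely the orbits of all `v` are equidistributed modulo all `q` prime to `M`: ergodic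
theorem for random walks on finite groups (`Pool.Agent.N24.RW`), applied to the group of affine permutations
(`Run7.h972.AW`).
-/

set_option autoImplicit false

namespace Pool.Agent.Results.MP_5f2860_nt.RandomAffineOrbits

open MeasureTheory
open Pool.Agent.Results.MP_5f2860_nt.AlmostAllMembers (Ind)
open Pool.Agent.Results.MP_5f2860_nt.ResidueClassesAndOrbits (Bad pnull_pull)
open Pool.Agent.N24.RW (words)
open Pool.Agent.N24.KM (Rarely)
open Run7.h972.AW

theorem result (r : ℕ) (W : AffineWalk (Fin r)) :
    ∀ᵐ w ∂(words W.m), ∀ (v : Fin r → ℤ) (p : ℕ) [Fact p.Prime], ¬ p ∣ W.M →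
      ∀ r₁ r₂ : ℕ, 1 ≤ r₁ + r₂ → ∀ σ : Ind r₁ r₂ → Fin r, Function.Injective σ →
        Rarely (aorb W v w) (Bad p σ) := by
  filter_upwards [aorb_rarely W] with w hw v p hp hM r₁ r₂ hr σ hσ
  exact hw v p hp.out hM _ (pnull_pull p hr σ hσ)

end Pool.Agent.Results.MP_5f2860_nt.RandomAffineOrbits
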