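import Mathlib
import Pool.Agent.Run7.h508.BR.Leo2

/-!
# Leopoldt's conjecture and everywhere unramified extensions of prime degree

Let `p` be a prime and `m > 0` an integer (for example `m = p`). Leopoldt's conjecture for `p` and
all number fields holds if and only if the Leopoldt defect does not grow in the extensions `L/K`
with the following properties: `K` is totally complex, `L/K` is a Galois extension of prime degree,
unramified everywhere, and the primes above `m` split completely in it. It suffices to consider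
fields `K` which contain a given number field `k`, if Leopoldt's conjecture is true for one totally
complex extension of `k` (for example for abelian `k`).
-/

set_option autoImplicit false
set_option linter.unusedSectionVars false

namespace Pool.Agent.Results.MP_5f2860_nt.UnramifiedExtensions

open NumberField TensorProduct Filter Topology Pool.Agent.W289.SL

/-- The Leopoldt defect of `K`: the dimension of the kernel of Leopoldt's map, which sends the
elements `∑ a_i ⊗ ε_i` of `ℂ_p ⊗ 𝓞_K^×` to the vectors `(∑ a_i log_p (σ ε_i))_σ`, where `σ` runs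
through the embeddings of `K` into `ℂ_p`. It is the difference of the rank of the unit group and the
rank of the matrix of the logarithms of a maximal system of independent units. -/
noncomputable def defect {p : ℕ} [Fact p.Prime] {ℓ : ℂ_[p] → ℂ_[p]} (hℓ : IsIwasawaLog p ℓ)
    (K : Type) [Field K] [NumberField K] : ℕ :=
  Module.finrank ℂ_[p]
    (⨅ σ : K →+* ℂ_[p], LinearMap.ker (logLin hℓ σ) : Submodule ℂ_[p] (UM p K))

/-- Leopoldt's conjecture for `K` and `p`, in relation form: units congruent to `1` modulo all primes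
above `p` which are independent over `ℤ` are independent over `ℤ_p`. -/
def Leopoldt (K : Type) [Field K] [NumberField K] (p : ℕ) [Fact p.Prime] : Prop :=
  ∀ (n : ℕ) (ε : Fin n → (𝓞 K)ˣ),
    (∀ i, ((ε i : 𝓞 K) - 1) ∈ (Ideal.span {((p : ℕ) : 𝓞 K)}).radical) →
    (∀ c : Fin n → ℤ, ∏ i, ε i ^ c i = 1 → c = 0) →
    ∀ (a : Fin n → PadicInt p) (m : ℕ → Fin n → ℤ),
      (∀ i, Tendsto (fun k => ((m k i : ℤ) : PadicInt p)) atTop (𝓝 (a i))) →
      (∀ N : ℕ, ∀ᶠ k in atTop,
        ((p : ℕ) : 𝓞 K) ^ N ∣ (((∏ i, ε i ^ m k i : (𝓞 K)ˣ) : 𝓞 K) - 1)) →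
      a = 0

/-- All inertia groups of `L/K` are trivial, and the decomposition groups of the primes above `m`
are trivial. -/
def UnramifiedSplit (m : ℕ) (K L : Type) [Field K] [Field L] [Algebra K L] : Prop :=
  ∀ P : Ideal (𝓞 L), P.IsMaximal → ∀ g : L ≃ₐ[K] L,
    ((∀ x y : 𝓞 L, (y : L) = g x → y - x ∈ P) → g = 1) ∧
    ((m : 𝓞 L) ∈ P → (∀ x y : 𝓞 L, (y : L) = g x → (y ∈ P ↔ x ∈ P)) → g = 1)

/-- The defect does not change in the everywhere unramified extensions `L/K` of prime degree, split
above `m`, of totally complex fields `K ⊇ k`. -/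
def UnramifiedCase {p : ℕ} [Fact p.Prime] {ℓ : ℂ_[p] → ℂ_[p]} (hℓ : IsIwasawaLog p ℓ) (m : ℕ)
    (k : Type) [Field k] : Prop :=
  ∀ (K L : Type) [Field K] [NumberField K] [Field L] [NumberField L] [Algebra k K] [Algebra K L]
    [Algebra k L] [IsScalarTower k K L] [IsGalois K L], IsTotallyComplex K →
    (Module.finrank K L).Prime → UnramifiedSplit m K L → defect hℓ L = defect hℓ K

/-- The number of the real embeddings of `K` over the embedding `v` of `k`. -/
noncomputable def realAbove {k : Type} [Field k] (v : k →+* ℂ) (K : Type) [Field K] [Algebra k K] :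
    ℕ := Nat.card {χ : K →+* ℂ // ComplexEmbedding.IsReal χ ∧ χ.comp (algebraMap k K) = v}

open Pool.Agent.Run7.h508.BR in
lemma unrSplit_of {m : ℕ} {K L : Type} [Field K] [Field L] [Algebra K L]
    (h : UnrSplit m K L) : UnramifiedSplit m K L := by
  intro P hP g
  refine ⟨fun h1 => (h P hP).1 g fun x => h1 x _ rfl, fun hm h1 => (h P hP).2 hm g fun x =>
    h1 x _ rfl⟩

open Pool.Agent.Run7.h508.BR in
lemma noChange_of {p : ℕ} [Fact p.Prime] {ℓ : ℂ_[p] → ℂ_[p]} (hℓ : IsIwasawaLog p ℓ) {m : ℕ}
    {k : Type} [Field k] [NumberField k] (h : UnramifiedCase hℓ m k) :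
    NoChange (leoFun hℓ k) m := by
  intro K L _ _ _ _ _ _ _ _ _ hK hp hu
  have h1 : leo hℓ L = leo hℓ K := h K L hK hp (unrSplit_of hu)
  change (leo hℓ K : ℂ_[p]) = (leo hℓ L : ℂ_[p])
  rw [h1]

open Pool.Agent.Run7.h508.BR in
lemma all_zero {p : ℕ} [Fact p.Prime] {ℓ : ℂ_[p] → ℂ_[p]} (hℓ : IsIwasawaLog p ℓ) {m : ℕ}
    (hm : m ≠ 0) {k : Type} [Field k] [NumberField k] (h : UnramifiedCase hℓ m k) (K₀ : Type)
    [Field K₀] [NumberField K₀] [Algebra k K₀] (hK₀ : IsTotallyComplex K₀)
    (h0 : defect hℓ K₀ = 0) (K : Type) [Field K] [NumberField K] : defect hℓ K = 0 := by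
  obtain ⟨N, i1, i2, i3, i4, i5, i6, i7, i8⟩ := exists_common ℚ K K₀
  let _ : Algebra k N := ((algebraMap K₀ N).comp (algebraMap k K₀)).toAlgebra
  have hN : IsTotallyComplex N := isTotallyComplex_of_algebra K₀ N
  have h1 := complex_const (leoFun hℓ k) hm (noChange_of hℓ h) N K₀ hN hK₀
  have h2 : leo hℓ N = leo hℓ K₀ := by
    have h3 : (leo hℓ N : ℂ_[p]) = (leo hℓ K₀ : ℂ_[p]) := h1
    exact_mod_cast h3
  have h4 : leo hℓ K₀ = 0 := h0
  have h5 := leo_mono hℓ K N
  rw [h2, h4] at h5
  exact Nat.le_zero.mp h5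

open Pool.Agent.Run7.h508.BR in
/-- **Main theorem.** Let `p` be a prime, `log_p` Iwasawa's logarithm and `m > 0`.

* The defect is zero for all number fields if and only if it does not change in the everywhere
  unramified extensions of prime degree, split above `m`, of totally complex fields.
* The same if we only consider the totally complex fields which contain a given number field `k`,
  provided that the defect of some totally complex field `K₀ ⊇ k` is zero.
* If the defect of `K` is zero, then Leopoldt's conjecture in relation form holds for `K`.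
* Let `k` be any number field. If the defect does not change in the unramified case over `k`, then
  it is the same for all totally complex fields over `k`, and more generally
  `∑ t_i (δ(K_i) - δ(K₀)) = 0` for all finite families of fields `K_i ⊇ k`, totally complex
  `K₀ ⊇ k` and integers `t_i` such that `∑ t_i r_v(K_i) = 0` for all real places `v` of `k`, where
  `r_v(K_i)` is the number of the real places of `K_i` over `v`. -/
theorem result (p : ℕ) [Fact p.Prime] (ℓ : ℂ_[p] → ℂ_[p]) (hℓ : IsIwasawaLog p ℓ) (m : ℕ)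
    (hm : m ≠ 0) :
    ((∀ (K : Type) [Field K] [NumberField K], defect hℓ K = 0) ↔ UnramifiedCase hℓ m ℚ) ∧
    (∀ (k : Type) [Field k] [NumberField k] (K₀ : Type) [Field K₀] [NumberField K₀]
      [Algebra k K₀], IsTotallyComplex K₀ → defect hℓ K₀ = 0 →
      ((∀ (K : Type) [Field K] [NumberField K], defect hℓ K = 0) ↔ UnramifiedCase hℓ m k)) ∧
    (∀ (K : Type) [Field K] [NumberField K], defect hℓ K = 0 → Leopoldt K p) ∧
    (∀ (k : Type) [Field k] [NumberField k], UnramifiedCase hℓ m k →
      ∀ (K₀ : Type) [Field K₀] [NumberField K₀] [Algebra k K₀], IsTotallyComplex K₀ →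
      ∀ (ι : Type) [Fintype ι] (K : ι → Type) [∀ i, Field (K i)] [∀ i, NumberField (K i)]
        [∀ i, Algebra k (K i)] (t : ι → ℤ),
        (∀ v : k →+* ℂ, ∑ i, t i * (realAbove v (K i) : ℤ) = 0) →
        ∑ i, t i * ((defect hℓ (K i) : ℤ) - defect hℓ K₀) = 0) := by
  refine ⟨⟨fun h K L _ _ _ _ _ _ _ _ _ _ _ _ => ?_, fun h K _ _ => ?_⟩, fun k _ _ K₀ _ _ _ hK₀ h0 =>
    ⟨fun h K L _ _ _ _ _ _ _ _ _ _ _ _ => ?_, fun h K _ _ => ?_⟩, fun K _ _ h => ?_,
    fun k _ _ h K₀ _ _ _ hK₀ ι _ K _ _ _ t ht => ?_⟩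
  · rw [h L, h K]
  · obtain ⟨K₀, i1, i2, h1, h2⟩ := exists_gauss
    exact all_zero hℓ hm h K₀ h1 (leo_zero hℓ K₀ h2) K
  · rw [h L, h K]
  · exact all_zero hℓ hm h K₀ hK₀ h0 K
  · exact leopoldtAt_of hℓ h
  · exact real_formula_nat (leoFun hℓ k) hm (noChange_of hℓ h) K₀ hK₀ K t ht
      (fun i => defect hℓ (K i)) (defect hℓ K₀) (fun i => rfl) rfl

end Pool.Agent.Results.MP_5f2860_nt.UnramifiedExtensions
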